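import Pool.Agent.U660.AC.Count

/-!
# Degrees of curves on complete intersections with integral equations

The question is whether `d_1 ⋯ d_r` divides the degrees of all curves on a very general complete
intersection `X ⊂ P^(n+r)` of large degrees `d_1, ..., d_r`. The results up to now (the starting
results of this page; Kollár for one equation) are about very general `X`, off countably many proper
closed subsets of the parameter space, so they say nothing about a complete intersection with
integral or algebraic equations.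

Here we show that the divisibility by all numbers `Q` of the starting result `GraphGroups`, and by
the numbers `Q` of the case of paired blocks of the starting result `BlockCoverings`, holds for all
systems of equations in a congruence class: there are a number `M > 0` and integral forms
`e_1, ..., e_r` of degrees `d_1, ..., d_r` such that every curve, over `ℂ`, on
`f_1 = ... = f_r = 0` has a degree divisible by all these `Q`, whenever the coefficients of
`f_i - e_i` are multiples of `M` in a subring `A` of `ℂ` in which no prime factor of `M` is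
invertible. This applies to the ring of all algebraic integers, to the integers of all number fields
and, of course, to `A = ℤ`. The class is Zariski dense, so it contains smooth complete
intersections over `ℚ`, and it has a positive proportion of all integral systems of equations.

The proof: a curve on `X` has, for a valuation ring of `ℂ` with residue characteristic `p`, a
reduction with the same Hilbert function on the reduced equations. The toric complete intersections
of the library (folder `TH922.KC`), for which the degrees of the curves are divisible by `Q` by Kummer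
theory, have integral equations, and the argument over the residue field works in characteristic `p`
if `p` does not divide `Q` and is larger than the number of the vertices of the graph; for the paired
blocks one takes `p ≡ 1` modulo `Q`. Different `Q` need different primes, and the congruences are
combined by the Chinese remainder theorem.
-/

set_option autoImplicit false

open MvPolynomial

namespace Pool.Agent.Results.MP_8dbee4_ag.IntegralEquations

/-- The Hilbert function of the ideal `I` of `ℂ[x_0, ..., x_N]`. -/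
noncomputable def hilbert {N : ℕ} (I : Ideal (MvPolynomial (Fin (N + 1)) ℂ)) (k : ℕ) : ℕ :=
  Module.finrank ℂ (Submodule.map (Ideal.Quotient.mkₐ ℂ I).toLinearMap
    (MvPolynomial.homogeneousSubmodule (Fin (N + 1)) ℂ k))

/-- `I` is the ideal of an integral curve in `P^N`: a homogeneous prime ideal with
`dim ℂ[x] / I = 2`. -/
def IsCurve {N : ℕ} (I : Ideal (MvPolynomial (Fin (N + 1)) ℂ)) : Prop :=
  (∀ p ∈ I, ∀ k : ℕ, MvPolynomial.homogeneousComponent k p ∈ I) ∧ I.IsPrime ∧
    ringKrullDim (MvPolynomial (Fin (N + 1)) ℂ ⧸ I) = 2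

/-- `Q` divides the degree of the curve `I`: it divides the differences of the values of the Hilbert
function at `k + 1` and at `k` for all large `k`. -/
def DividesDegree {N : ℕ} (Q : ℕ) (I : Ideal (MvPolynomial (Fin (N + 1)) ℂ)) : Prop :=
  ∃ K : ℕ, ∀ k : ℕ, K ≤ k → (Q : ℤ) ∣ (hilbert I (k + 1) : ℤ) - (hilbert I k : ℤ)

/-- The index set of the coefficients of `r` forms of degrees `d i` in `n + r + 1` variables. -/
abbrev Index (n : ℕ) {r : ℕ} (d : Fin r → ℕ) : Type :=
  Σ i : Fin r, {μ : Fin (n + r + 1) →₀ ℕ // μ.degree = d i}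

/-- The `i`-th form of the system with the coefficients `c`. -/
noncomputable def form {n r : ℕ} {d : Fin r → ℕ} (c : Index n d → ℂ) (i : Fin r) :
    MvPolynomial (Fin (n + r + 1)) ℂ :=
  ∑ᶠ μ : {μ : Fin (n + r + 1) →₀ ℕ // μ.degree = d i}, monomial μ.1 (c ⟨i, μ⟩)

/-- The graph with `V` vertices and the `m` edges `(a c, b c)` is robust: for every set `K` of at
most `n` vertices there is a connected set `T` of vertices, disjoint from `K`, with
`|K| + |T| ≥ n + 1`. -/
def IsRobust (n : ℕ) {V m : ℕ} (a b : Fin m → Fin V) : Prop :=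
  ∀ K : Finset (Fin V), K.card ≤ n → ∃ T : Finset (Fin V), Disjoint K T ∧
    n + 1 ≤ K.card + T.card ∧ ∀ U ⊂ T, U.Nonempty →
      ∃ c, (a c ∈ U ∧ b c ∈ T \ U) ∨ (b c ∈ U ∧ a c ∈ T \ U)

/-- The indices can be sorted into `m` groups such that `Q` divides the product of the degrees of each
group; here `m` is `n (n + 1) / 2`, or `⌊(n + 1)² / 4⌋ + 1`, or `14 n`, or the number of the edges of
any robust graph. -/
def ByGroups (n : ℕ) {r : ℕ} (d : Fin r → ℕ) (Q : ℕ) : Prop :=
  0 < Q ∧ ∃ m : ℕ, (m = n * (n + 1) / 2 ∨ m = (n + 1) ^ 2 / 4 + 1 ∨ m = 14 * n ∨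
      ∃ (V : ℕ) (a b : Fin m → Fin V), IsRobust n a b) ∧
    ∃ g : Fin r → Fin m, ∀ c, Q ∣ ∏ i ∈ Finset.univ.filter (fun i => g i = c), d i

/-- `Q` is prime to `6`, it divides `⌊(n + 1) / 2⌋` of the degrees, and it divides
`l (l - 1) / 2` other ones, `l = ⌊(n + 2) / 2⌋`, which are at least `2 Q²`. -/
def ByPairs (n : ℕ) {r : ℕ} (d : Fin r → ℕ) (Q : ℕ) : Prop :=
  Q.Coprime 6 ∧ ∃ S T : Finset (Fin r), Disjoint S T ∧ (n + 1) / 2 ≤ S.card ∧
    ((n + 2) / 2).choose 2 ≤ T.card ∧ (∀ i ∈ S, Q ∣ d i) ∧ ∀ i ∈ T, Q ∣ d i ∧ 2 * Q ^ 2 ≤ d i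

/-- The degree of every integral curve on the common zero set in `P^(n+r)`, over `ℂ`, of the forms
with the coefficients `c` is divisible by all numbers `Q` with `ByGroups` or `ByPairs`. -/
def Divisible {n r : ℕ} {d : Fin r → ℕ} (c : Index n d → ℂ) : Prop :=
  ∀ Q : ℕ, ByGroups n d Q ∨ ByPairs n d Q →
    ∀ I : Ideal (MvPolynomial (Fin (n + r + 1)) ℂ), IsCurve I → (∀ i, form c i ∈ I) →
      DividesDegree Q I

lemma form_eq {n r : ℕ} {d : Fin r → ℕ} (c : Index n d → ℂ) (i : Fin r) :
    form c i = Pool.Agent.U660.AC.sy d c i := by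
  unfold form Pool.Agent.U660.AC.sy
  rw [finsum_eq_sum_of_fintype]
  simp only [Pool.Agent.TH922.KC.tp, LinearMap.sum_apply, LinearMap.comp_apply,
    LinearMap.proj_apply]

lemma ad_of {n r : ℕ} (hn : 0 < n) {d : Fin r → ℕ} {Q : ℕ} (h : ByGroups n d Q ∨ ByPairs n d Q) :
    Pool.Agent.U660.AC.Ad n d Q := by
  rcases h with ⟨hQ, m, hm, g, hg⟩ | h
  · refine Or.inl ⟨hQ, m, ?_, g, hg⟩
    rcases hm with h | h | h | ⟨V, a, b, h⟩
    · exact Or.inl h
    · exact Or.inr (Or.inl h)
    · exact Or.inr (Or.inr (Or.inl ⟨hn, h⟩))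
    · exact Or.inr (Or.inr (Or.inr ⟨V, a, b, h⟩))
  · exact Or.inr h

lemma divisible_of {n r : ℕ} (hn : 0 < n) {d : Fin r → ℕ} (c : Index n d → ℂ)
    (h : ∀ Q, Pool.Agent.U660.AC.Ad n d Q →
      Pool.Agent.U660.AC.Dv n (Pool.Agent.U660.AC.sy d c) Q) : Divisible c := by
  intro Q hQ I hI hf
  exact h Q (ad_of hn hQ) I hI.1 hI.2.2 fun i => by
    rw [← form_eq]; exact hf i

lemma divisible_int {n r : ℕ} (hn : 0 < n) {d : Fin r → ℕ} {M : ℕ} {e : Index n d → ℤ}
    (h : ∀ A : Subring ℂ, (∀ p : ℕ, p.Prime → p ∣ M → ((p : ℂ))⁻¹ ∉ A) →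
        ∀ c : Index n d → ℂ, (∀ s, ∃ u ∈ A, c s = e s + M * u) →
          ∀ Q, Pool.Agent.U660.AC.Ad n d Q →
            Pool.Agent.U660.AC.Dv n (Pool.Agent.U660.AC.sy d c) Q)
    (c : Index n d → ℤ) (hc : ∀ s, (M : ℤ) ∣ c s - e s) :
    Divisible (fun s => ((c s : ℤ) : ℂ)) := by
  refine divisible_of hn _ (h (Int.castRingHom ℂ).range
    (fun p hp _ => Pool.Agent.U660.AC.inv_not_mem p hp) _ fun s => ?_)
  obtain ⟨t, ht⟩ := hc s
  refine ⟨(t : ℂ), ⟨t, rfl⟩, ?_⟩
  have h1 : c s = e s + M * t := by linarith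
  rw [h1]
  push_cast
  rfl

/-- **Complete intersections with integral equations.** For `n ≥ 1` and `d_1, ..., d_r ≥ 1` there are
a number `M > 0` and a system of integral forms of degrees `d_1, ..., d_r` in `n + r + 1` variables,
with the coefficients `e`, such that:

1. for every subring `A` of `ℂ` in which no prime factor of `M` is invertible and every system of
forms `f_1, ..., f_r` which is congruent to the system `e` modulo `M A` the degrees of all curves on
`f_1 = ... = f_r = 0` in `P^(n+r)` over `ℂ` are divisible by all `Q` with `ByGroups` or `ByPairs`;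

2. the integral systems congruent to `e` modulo `M` are Zariski dense;

3. a positive proportion of all integral systems with coefficients of absolute value at most `H` has
the property of 1, for all large `H`. -/
theorem result (n r : ℕ) (hn : 0 < n) (d : Fin r → ℕ) (hd : ∀ i, 0 < d i) :
    ∃ (M : ℕ) (e : Index n d → ℤ), 0 < M ∧
      (∀ A : Subring ℂ, (∀ p : ℕ, p.Prime → p ∣ M → (p : ℂ)⁻¹ ∉ A) →
        ∀ c : Index n d → ℂ, (∀ s, ∃ u ∈ A, c s = e s + M * u) → Divisible c) ∧
      (∀ h : MvPolynomial (Index n d) ℂ, h ≠ 0 → ∃ c : Index n d → ℤ,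
        (∀ s, (M : ℤ) ∣ c s - e s) ∧ eval (fun s => (c s : ℂ)) h ≠ 0) ∧
      ∃ δ : ℝ, 0 < δ ∧ ∃ H₀ : ℕ, ∀ H : ℕ, H₀ ≤ H →
        δ * ({c : Index n d → ℤ | ∀ s, |c s| ≤ H}).ncard ≤
          ({c : Index n d → ℤ | (∀ s, |c s| ≤ H) ∧
            Divisible (fun s => ((c s : ℤ) : ℂ))}).ncard := by
  obtain ⟨M, e, hM, h⟩ := Pool.Agent.U660.AC.main hn d hd
  refine ⟨M, e, hM, fun A hA c hc => divisible_of hn c (h A hA c hc),
    Pool.Agent.U660.AC.dense M hM e, ?_⟩
  obtain ⟨δ, hδ, h1⟩ := Pool.Agent.U660.AC.proportion M hM e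
  refine ⟨δ, hδ, M, fun H hH => (h1 H hH).trans ?_⟩
  have hfin : ({c : Index n d → ℤ | (∀ s, |c s| ≤ H) ∧
      Divisible (fun s => ((c s : ℤ) : ℂ))}).Finite := by
    refine Set.Finite.subset (Set.Finite.pi' (fun _ : Index n d =>
      Set.finite_Icc (-(H : ℤ)) H)) ?_
    rintro c ⟨hc, -⟩ s
    exact abs_le.mp (hc s)
  have hsub : {c : Index n d → ℤ | (∀ s, |c s| ≤ H) ∧ ∀ s, (M : ℤ) ∣ c s - e s} ⊆
      {c : Index n d → ℤ | (∀ s, |c s| ≤ H) ∧ Divisible (fun s => ((c s : ℤ) : ℂ))} :=
    fun c hc => ⟨hc.1, divisible_int hn h c hc.2⟩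
  exact_mod_cast Set.ncard_le_ncard hsub hfin

end Pool.Agent.Results.MP_8dbee4_ag.IntegralEquations
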