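import Pool.Agent.U660.AD.Grp
import Pool.Agent.Results.MP_8dbee4_ag.IntegralEquations

/-!
# Curves on complete intersections with integral equations of almost all degrees

The question is whether `d_1 ⋯ d_r` divides the degrees of all curves on a very general complete
intersection `X ⊂ P^(n+r)` of large degrees. For almost all tuples of degrees, a number `Q(n, r)` which
is at least a fixed power of `d_1 ⋯ d_r` (if the degrees are bounded by a power of `r`) divides the
degrees of the curves on a very general `X` (starting result `AlmostAllDegrees`). The theorem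
`IntegralEquations` gives divisors of the degrees of the curves on the members of a congruence class of
systems of equations over any ring of integers.

Here the two are combined: for almost all degree tuples in every box, and for all dimensions `n ≥ 1`,
there is a congruence class of integral systems of equations, Zariski dense and of positive proportion,
such that for all complete intersections in this class, over `ℤ` or over any ring `A ⊂ ℂ` in which the
prime factors of the modulus are not invertible, `Q(m, r)` divides the degrees of all curves over `ℂ`.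
Here `Q` is the number of the starting result, and `m` is the number of the edges of any robust graph
for the dimension `n`, for instance `m = 1` for `n = 1` and `m = 14 n` for all `n`.

The new point in the proof: by the theorem `IntegralEquations` only those `Q` are available for which
the degrees can be sorted into `m` groups such that `Q` divides the product of each group. For almost
all degree tuples and every prime `p ≤ r ^ (1 - ε / 2)` the number of the degrees divisible by `p` is at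
least `(1 - ε / 2) r / p`, and they can be distributed evenly over the `m` groups. The groups depend on
`p`, but the congruence class does not (one prime power after the other divides the degree).
-/

set_option autoImplicit false

open MvPolynomial

namespace Pool.Agent.Results.MP_8dbee4_ag.IntegralAlmostAllDegrees

open Pool.Agent.Results.MP_8dbee4_ag.IntegralEquations

/-- `m ≥ 1` is `n (n + 1) / 2`, or `⌊(n + 1)² / 4⌋ + 1`, or `14 n`, or the number of the edges of any
graph which is robust: for every set `K` of at most `n` vertices there is a connected set `T` of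
vertices, disjoint from `K`, with `|K| + |T| ≥ n + 1`. -/
def Edges (n m : ℕ) : Prop :=
  1 ≤ m ∧ (m = n * (n + 1) / 2 ∨ m = (n + 1) ^ 2 / 4 + 1 ∨ m = 14 * n ∨
    ∃ (V : ℕ) (a b : Fin m → Fin V), IsRobust n a b)

/-- For all `m` with `Edges n m` the number `Q m` divides the degree of every integral curve on the
common zero set in `P^(n+r)`, over `ℂ`, of the forms with the coefficients `c`. -/
def AllCurves {n r : ℕ} {d : Fin r → ℕ} (Q : ℕ → ℕ) (c : Index n d → ℂ) : Prop :=
  ∀ m : ℕ, Edges n m → ∀ I : Ideal (MvPolynomial (Fin (n + r + 1)) ℂ), IsCurve I →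
    (∀ i, form c i ∈ I) → DividesDegree (Q m) I

/-- There are a number `M > 0` and a system `e` of integral forms of degrees `d_1, ..., d_r` such that
`AllCurves` holds for all systems congruent to `e` modulo `M A`, for every subring `A` of `ℂ` in which
no prime factor of `M` is invertible; the integral systems congruent to `e` modulo `M` are Zariski
dense, and `AllCurves` holds for a positive proportion of all integral systems with coefficients of
absolute value at most `H`, for all large `H`. -/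
def ManyIntegralSystems (n r : ℕ) (d : Fin r → ℕ) (Q : ℕ → ℕ) : Prop :=
  ∃ (M : ℕ) (e : Index n d → ℤ), 0 < M ∧
    (∀ A : Subring ℂ, (∀ p : ℕ, p.Prime → p ∣ M → (p : ℂ)⁻¹ ∉ A) →
      ∀ c : Index n d → ℂ, (∀ s, ∃ u ∈ A, c s = e s + M * u) → AllCurves Q c) ∧
    (∀ h : MvPolynomial (Index n d) ℂ, h ≠ 0 → ∃ c : Index n d → ℤ,
      (∀ s, (M : ℤ) ∣ c s - e s) ∧ eval (fun s => (c s : ℂ)) h ≠ 0) ∧
    ∃ δ : ℝ, 0 < δ ∧ ∃ H₀ : ℕ, ∀ H : ℕ, H₀ ≤ H →
      δ * ({c : Index n d → ℤ | ∀ s, |c s| ≤ H}).ncard ≤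
        ({c : Index n d → ℤ | (∀ s, |c s| ≤ H) ∧
          AllCurves Q (fun s => ((c s : ℤ) : ℂ))}).ncard

/-- For `r ≥ r₂`, every `N ≥ r` and every box `∏ (A_i, A_i + N]` all degree tuples `d` in the box but at
most `exp (-r ^ (ε / 4)) N ^ r` are such that `ManyIntegralSystems` holds in all dimensions `n ≥ 1`. -/
def AlmostAll (ε : ℝ) (Q : ℕ → ℕ → ℕ) : Prop :=
  ∃ r₂ : ℕ, ∀ r : ℕ, r₂ ≤ r → ∀ N : ℕ, r ≤ N → ∀ A : Fin r → ℕ,
    ∃ Ex : Finset (Fin r → ℕ),
      (Ex.card : ℝ) ≤ Real.exp (-(r : ℝ) ^ (ε / 4)) * (N : ℝ) ^ r ∧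
      ∀ d : Fin r → ℕ, (∀ i, A i < d i ∧ d i ≤ A i + N) → d ∉ Ex →
        ∀ n : ℕ, 1 ≤ n → ManyIntegralSystems n r d (fun m => Q m r)

/-- For every `m ≥ 1` and `r ≥ r₁(m)` all integers `1 ≤ q ≤ r ^ (1 - ε)` divide `Q m r`, and
`Q m r ≥ r ^ ((1 - 3 ε) r / m)`, and `Q m r ≥ (d_1 ⋯ d_r) ^ ((1 - 3 ε) / (c m))` whenever `1 ≤ d_i ≤ r ^ c`,
`c ≥ 1`. -/
def FixedSize (ε : ℝ) (Q : ℕ → ℕ → ℕ) : Prop :=
  ∀ m : ℕ, 1 ≤ m → ∃ r₁ : ℕ, ∀ r : ℕ, r₁ ≤ r →
    (∀ q : ℕ, 1 ≤ q → (q : ℝ) ≤ (r : ℝ) ^ (1 - ε) → q ∣ Q m r) ∧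
    (r : ℝ) ^ ((1 - 3 * ε) * r / m) ≤ Q m r ∧
    ∀ c : ℝ, 1 ≤ c → ∀ d : Fin r → ℕ, (∀ i, 1 ≤ d i ∧ (d i : ℝ) ≤ (r : ℝ) ^ c) →
      ((∏ i, d i : ℕ) : ℝ) ^ ((1 - 3 * ε) / (c * m)) ≤ Q m r

/-- For `r ≥ r₀` and all `m ≥ 1` with `m² ≤ r ^ (1 - ε)` one has
`Q m r ≥ (r ^ (1 - ε) / m²) ^ ((1 - ε) r / m)`. -/
def UniformSize (ε : ℝ) (Q : ℕ → ℕ → ℕ) : Prop :=
  ∃ r₀ : ℕ, ∀ r : ℕ, r₀ ≤ r → ∀ m : ℕ, 1 ≤ m → (m : ℝ) ^ 2 ≤ (r : ℝ) ^ (1 - ε) →
    ((r : ℝ) ^ (1 - ε) / (m : ℝ) ^ 2) ^ ((1 - ε) * r / m) ≤ Q m r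

open Pool.Agent.N773.AD in
/-- the divisibility for a system with `Divisible` and degrees many of which are divisible by `p` -/
lemma all_of {ε : ℝ} {n r : ℕ} {d : Fin r → ℕ}
    (hd : ∀ p : ℕ, p.Prime → p ≤ yy ε r → SS ε r p ≤ cnt p d)
    (c : Index n d → ℂ) (hc : Divisible c) : AllCurves (fun m => QQ ε m r) c := by
  intro m hm I hI hf
  refine Pool.Agent.U660.AD.QQ_dvd ε r _ fun p hp hpy => ?_
  have h1 : m * ex ε m r p ≤ cnt p d := by
    refine le_trans ?_ (hd p hp hpy)
    exact (Nat.mul_le_mul_left m (Pool.Agent.U660.AD.ex_le ε hm.1 r p)).trans (Nat.mul_div_le _ _)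
  obtain ⟨g, hg⟩ := Pool.Agent.U660.AD.group_dvd hm.1 d h1
  exact hc (p ^ ex ε m r p) (Or.inl ⟨pow_pos hp.pos _, m, hm.2, g, hg⟩) I hI hf

/-- **Curves on complete intersections with integral equations of almost all degrees.** For
`0 < ε < 1` there are numbers `Q m r` such that for almost all degree tuples `d_1, ..., d_r` and all
dimensions `n` the degrees of all curves, over `ℂ`, on the members of a congruence class of integral
systems of equations of degrees `d_1, ..., d_r` are divisible by `Q m r` for every `m` with `Edges n m`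
(`AlmostAll`), and which are large (`FixedSize`, `UniformSize`) and, for fixed `m`, divisible by all
integers up to `r ^ (1 - ε)`. -/
theorem result (ε : ℝ) (hε : 0 < ε) (hε1 : ε < 1) :
    ∃ Q : ℕ → ℕ → ℕ, AlmostAll ε Q ∧ FixedSize ε Q ∧ UniformSize ε Q := by
  refine ⟨Pool.Agent.N773.AD.QQ ε, ?_, fun m hm => ?_, Pool.Agent.N773.AD.size ε hε hε1⟩
  · obtain ⟨r₂, h⟩ := Pool.Agent.U660.AD.almost_all_cnt ε hε hε1
    refine ⟨r₂, fun r hr N hN A => ?_⟩
    obtain ⟨Ex, h1, h2⟩ := h r hr N hN A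
    refine ⟨Ex, h1, fun d hd hdE n hn => ?_⟩
    have h3 := h2 d hd hdE
    obtain ⟨M, e, hM, h4, h5, δ, hδ, H₀, h6⟩ :=
      Pool.Agent.Results.MP_8dbee4_ag.IntegralEquations.result n r hn d
        fun i => (Nat.zero_le _).trans_lt (hd i).1
    refine ⟨M, e, hM, fun B hB c hc => all_of h3 c (h4 B hB c hc), h5, δ, hδ, H₀,
      fun H hH => (h6 H hH).trans ?_⟩
    have hfin : ({c : Index n d → ℤ | (∀ s, |c s| ≤ H) ∧
        AllCurves (fun m => Pool.Agent.N773.AD.QQ ε m r) (fun s => ((c s : ℤ) : ℂ))}).Finite := by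
      refine Set.Finite.subset (Set.Finite.pi' (fun _ : Index n d =>
        Set.finite_Icc (-(H : ℤ)) H)) ?_
      rintro c ⟨hc, -⟩ s
      exact abs_le.mp (hc s)
    have hsub : {c : Index n d → ℤ | (∀ s, |c s| ≤ H) ∧ Divisible (fun s => ((c s : ℤ) : ℂ))} ⊆
        {c : Index n d → ℤ | (∀ s, |c s| ≤ H) ∧
          AllCurves (fun m => Pool.Agent.N773.AD.QQ ε m r) (fun s => ((c s : ℤ) : ℂ))} :=
      fun c hc => ⟨hc.1, all_of h3 _ hc.2⟩
    exact_mod_cast Set.ncard_le_ncard hsub hfin
  · obtain ⟨r₁, h1⟩ := Pool.Agent.N773.AD.all_q ε hε hε1 m hm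
    obtain ⟨r₁', h2⟩ := Pool.Agent.N773.AD.fixed ε hε hε1 m hm
    exact ⟨max r₁ r₁', fun r hr => ⟨h1 r ((le_max_left _ _).trans hr),
      h2 r ((le_max_right _ _).trans hr)⟩⟩

end Pool.Agent.Results.MP_8dbee4_ag.IntegralAlmostAllDegrees
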