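import Pool.Agent.U449.BV.EX
import Pool.Agent.Results.MP_8dbee4_ag.AlmostAllDegrees

/-!
# The degrees of curves on very general complete intersections whose degrees are values of mixed polynomials on dense sets

Let `0 < ε < 1`. There are numbers `Q(n, r)`, as large as in the starting file `AlmostAllDegrees` (for fixed `n` divisible by all
integers up to `r ^ (1 - ε)`, and at least `r ^ ((1 - 3 ε) r / n)`), with the following property. Let `η > 0`, `D` be given and `r`
large, let `p ≥ r` be ANY prime, `f(x, y)` ANY polynomial of degree at most `D` over the field of `q = p ^ r` elements with a monomial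
which contains both variables (for example `f = x y`), let `A`, `B` be ARBITRARY subsets of this field with at least `η q`
elements, `g`, `h` ARBITRARY functions and `Z` ANY vector of natural numbers. For all but `η |A| |B|` of the pairs `(a, b)` in `A × B`
and for ALL `n ≥ 1`, `Q(n, r)` divides the degrees of all curves on a very general complete intersection of dimension `n` and degrees
`Z_i + 1 + F_i(a, b)`, where the `F_i(a, b)` are the least residues of the `r` coordinates of `f(a, b) + g(a) + h(b)`. More
generally, this holds for all vector functions of two variables with few coincidences (`RareV`), on arbitrary dense finite sets.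

Since the sets and the functions `g` and `h` are arbitrary, the degree tuples have no arithmetic structure, and a tuple may be
taken by very many pairs. So the count of the exceptions (starting library) does not give the result directly. Proof: the
inequality of Cauchy and Schwarz; for most pairs `a, a'` the values `F(a, b)` and `F(a', b)` are equal for few `b`
(`Pool.Agent.U449.BV`).
-/

set_option autoImplicit false

namespace Pool.Agent.Results.MP_8dbee4_ag.MixedOnDenseSets

open Finset
open Pool.Agent.U449.BV (RareV exact_v coordinates)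
open Pool.Agent.Results.MP_8dbee4_ag.AlmostAllDegrees (DividesCurveDegrees FixedDimension UniformSize)

/-- For every `η > 0`, `D` and all large `r`: for all `N ≥ r`, all `Z`, all finite sets `A`, `B` of at least `η N ^ r` elements and all
functions `F` with values in `{0, …, N - 1} ^ r` and few coincidences, for all but `η |A| |B|` of the pairs `(a, b)` and for all
`n ≥ 1` the number `Q n r` divides the degrees of all curves on a very general complete intersection in `ℙ^(n+r)` of degrees
`Z_i + 1 + F_i(a, b)`. -/
def OnDenseProducts (Q : ℕ → ℕ → ℕ) : Prop :=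
  ∀ (η : ℝ) (D : ℕ), 0 < η → ∃ r₂ : ℕ, ∀ r : ℕ, r₂ ≤ r → ∀ N : ℕ, r ≤ N → ∀ (Z : Fin r → ℕ) (α β : Type)
    (A : Finset α) (B : Finset β) (F : α → β → Fin r → ℕ), η * (N : ℝ) ^ r ≤ A.card → η * (N : ℝ) ^ r ≤ B.card →
    (∀ a ∈ A, ∀ b ∈ B, ∀ i, F a b i < N) → RareV D A B (fun a b i => (F a b i : ℝ)) →
    ({z : α × β | z.1 ∈ A ∧ z.2 ∈ B ∧ ¬ ∀ n : ℕ, 1 ≤ n →
      DividesCurveDegrees n r (fun i => Z i + 1 + F z.1 z.2 i) (Q n r)}.ncard : ℝ) ≤ η * (A.card * B.card)

/-- **Theorem.** For `0 < ε < 1` there are numbers `Q n r` which are large (`FixedDimension`, `UniformSize`) and divide the degrees of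
all curves on a very general complete intersection for almost all degree tuples which are values of functions with few
coincidences on arbitrary dense finite sets (`OnDenseProducts`).
The tuples of the least residues modulo `p` of the coordinates (with respect to a basis over the field of `p` elements) of
`f(a, b) + g(a) + h(b)` in a field of `p ^ k` elements are such a function, with `N = p` and `r = k`, for all polynomials `f` over this
field with a monomial which contains both variables, arbitrary functions `g` and `h`, and arbitrary finite subsets. -/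
theorem result :
    (∀ ε : ℝ, 0 < ε → ε < 1 → ∃ Q : ℕ → ℕ → ℕ, OnDenseProducts Q ∧ FixedDimension ε Q ∧ UniformSize ε Q) ∧
    ∀ (p : ℕ) [Fact p.Prime] (k : ℕ) (K : Type) [Field K] [Algebra (ZMod p) K] (e : Module.Basis (Fin k) (ZMod p) K)
      (d : ℕ) (f : MvPolynomial (Fin 2) K), f.totalDegree ≤ d → (∃ m ∈ f.support, m 0 ≠ 0 ∧ m 1 ≠ 0) →
      ∀ (g h : K → K) (A B : Finset K),
        RareV d A B (fun a b i => (((e.repr (MvPolynomial.eval ![a, b] f + g a + h b) i).val : ℕ) : ℝ)) := by
  classical
  refine ⟨fun ε hε hε1 => ?_, coordinates⟩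
  obtain ⟨Q, ⟨r₁, hQ⟩, hF, hU⟩ := AlmostAllDegrees.result ε hε hε1
  refine ⟨Q, fun η D hη => ?_, hF, hU⟩
  have hlim : Filter.Tendsto (fun r : ℕ => 2 * (D : ℝ) * Real.exp (-(r : ℝ) ^ (ε / 4))) Filter.atTop (nhds 0) := by
    have h1 : Filter.Tendsto (fun r : ℕ => (r : ℝ) ^ (ε / 4)) Filter.atTop Filter.atTop :=
      (tendsto_rpow_atTop (by positivity)).comp tendsto_natCast_atTop_atTop
    have h2 := (Real.tendsto_exp_neg_atTop_nhds_zero.comp h1).const_mul (2 * (D : ℝ))
    rw [mul_zero] at h2
    exact h2
  have h1 := hlim.eventually (gt_mem_nhds (show 0 < η ^ 3 by positivity))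
  rw [Filter.eventually_atTop] at h1
  obtain ⟨r₀, hr₀⟩ := h1
  refine ⟨max 1 (max r₀ r₁), fun r hr N hN Z α β A B F hA hB hFN hR => ?_⟩
  have hr1 : 1 ≤ r := (le_max_left _ _).trans hr
  have hN0 : (0 : ℝ) < N := by exact_mod_cast (show 0 < N by omega)
  have hγ := (hr₀ r ((le_max_left _ _).trans ((le_max_right _ _).trans hr))).le
  obtain ⟨Ex, hEx, hgood⟩ := hQ r ((le_max_right _ _).trans ((le_max_right _ _).trans hr)) N hN Z
  have hE : (((Ex.image (fun d : Fin r → ℕ => fun i => (d i : ℤ) - Z i - 1)).card : ℕ) : ℝ) ≤
      Real.exp (-(r : ℝ) ^ (ε / 4)) * (N : ℝ) ^ r :=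
    le_trans (by exact_mod_cast card_image_le) hEx
  have hR' : RareV D A B (fun a b i => (((F a b i : ℕ) : ℤ) : ℝ)) := by
    simpa only [Int.cast_natCast] using hR
  have h2 := exact_v (F := fun a b i => ((F a b i : ℕ) : ℤ)) hη (pow_pos hN0 r) hγ _ hE hA hB hR'
  refine le_trans ?_ h2
  have hfin : {z : α × β | z.1 ∈ A ∧ z.2 ∈ B ∧ (fun i => ((F z.1 z.2 i : ℕ) : ℤ)) ∈
      Ex.image (fun d : Fin r → ℕ => fun i => (d i : ℤ) - Z i - 1)}.Finite := by
    apply (A ×ˢ B).finite_toSet.subset
    rintro z ⟨g1, g2, -⟩
    rw [mem_coe, mem_product]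
    exact ⟨g1, g2⟩
  refine Nat.cast_le.2 (Set.ncard_le_ncard ?_ hfin)
  rintro z ⟨g1, g2, g3⟩
  refine ⟨g1, g2, ?_⟩
  by_contra hc
  apply g3
  refine hgood (fun i => Z i + 1 + F z.1 z.2 i) (fun i => ?_) (fun hEx' => hc ?_)
  · have := hFN _ g1 _ g2 i
    omega
  · rw [mem_image]
    refine ⟨_, hEx', ?_⟩
    funext i
    push_cast
    ring

end Pool.Agent.Results.MP_8dbee4_ag.MixedOnDenseSets
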