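import Pool.Agent.U243.ACFBound

/-!
# Degrees of curves on very general complete intersections: one characteristic for every bound is enough

For a list `δ` of degrees with product `D`, all curves on the very general complete intersection `X ⊂ ℙⁿ⁺ʳ` over `ℂ` of these degrees
have degree divisible by `D` if and only if for every `e` there are some prime number `p` and some smooth complete intersection
over an algebraically closed field of characteristic `p`, all of whose curves of degree at most `e` have degree divisible by `D`.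
Then such complete intersections exist for all `p` which are large in terms of `e`, and over the algebraic closure of `ℚ`.

`CurveTheory` collects the known facts used. The complete intersections are given by the coefficients `a` of their equations.

* `ci_fo`, `curve_fo`: smoothness and, for fixed `e`, the existence of an integral curve of degree `e` on `X_a` are constructible
  conditions over `ℤ`, so first-order over algebraically closed fields.
* `vg_iff`: for every `e` the set of the `a` for which `X_a` contains a one-dimensional cycle of degree `e` is closed; so the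
  very general `X` has only curves of degree divisible by `D` if one smooth complex `X` has only such curves.
* `spec` (specialisation of cycles): if `X_0` over an algebraically closed field has no curves of degree at most `e` and not
  divisible by `D`, then this is true for a complex smooth complete intersection `X`: lift `X_0` to characteristic zero; a curve of
  degree at most `e` on `X` specialises to a cycle on `X_0`, the sum of curves of degrees at most `e`.
-/

set_option autoImplicit false

namespace Pool.Agent.Results.MP_8dbee4_ag.OneCharacteristic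

open Pool.Agent.U243.ACF

/-- Curves on complete intersections over algebraically closed fields, with the known facts that are used. -/
structure CurveTheory where
  /-- the number of the coefficients of forms of the degrees `δ` in `n + r + 1` variables, where `r` is the length of `δ` -/
  r : ℕ → List ℕ → ℕ
  /-- `CI n δ K a`: the forms define a smooth complete intersection `X_a` of dimension `n` over `K` -/
  CI : ∀ (n : ℕ) (δ : List ℕ) (K : Type) [Field K], (Fin (r n δ) → K) → Prop
  /-- `HasCurve e n δ K a`: there is an integral curve of degree `e` on `X_a` -/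
  HasCurve : ℕ → ∀ (n : ℕ) (δ : List ℕ) (K : Type) [Field K], (Fin (r n δ) → K) → Prop
  /-- every curve on a very general complete intersection of the degrees `δ` and dimension `n` over `ℂ` has degree divisible by
  the product of `δ` -/
  VeryGeneral : ∀ (_n : ℕ) (_δ : List ℕ), Prop
  ci_fo : ∀ n δ, FO1 (CI n δ)
  curve_fo : ∀ n δ, FO (fun e => HasCurve e n δ)
  vg_iff : ∀ n δ, VeryGeneral n δ ↔ ∃ a, CI n δ ℂ a ∧ ∀ e, HasCurve e n δ ℂ a → δ.prod ∣ e
  spec : ∀ (n : ℕ) (δ : List ℕ) (e : ℕ) (K : Type) [Field K], IsAlgClosed K →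
    (∃ a : Fin (r n δ) → K, CI n δ K a ∧ ∀ m ≤ e, HasCurve m n δ K a → δ.prod ∣ m) →
    ∃ a : Fin (r n δ) → ℂ, CI n δ ℂ a ∧ ∀ m ≤ e, HasCurve m n δ ℂ a → δ.prod ∣ m

variable (S : CurveTheory)

/-- over `K` there is a smooth complete intersection of the degrees `δ` all of whose curves of degree at most `e` have degree
divisible by the product of `δ` -/
def Good (n : ℕ) (δ : List ℕ) (e : ℕ) (K : Type) [Field K] : Prop :=
  ∃ a : Fin (S.r n δ) → K, S.CI n δ K a ∧ ∀ m ≤ e, S.HasCurve m n δ K a → δ.prod ∣ m

variable {S}

/-- the conditions up to `e`, as a first-order condition -/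
def Cond (S : CurveTheory) (n : ℕ) (δ : List ℕ) (e : ℕ) (K : Type) [Field K] (a : Fin (S.r n δ) → K) : Prop :=
  S.CI n δ K a ∧ ∀ m, 0 < m → m ≤ e → (S.HasCurve (m - 1) n δ K a → δ.prod ∣ m - 1)

lemma cond_iff {n : ℕ} {δ : List ℕ} {e : ℕ} {K : Type} [Field K] {a : Fin (S.r n δ) → K} :
    Cond S n δ (e + 1) K a ↔ (S.CI n δ K a ∧ ∀ m ≤ e, S.HasCurve m n δ K a → δ.prod ∣ m) := by
  constructor
  · rintro ⟨h1, h2⟩
    exact ⟨h1, fun m hm => h2 (m + 1) (by omega) (by omega)⟩
  · rintro ⟨h1, h2⟩
    exact ⟨h1, fun m h3 h4 => h2 (m - 1) (by omega)⟩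

lemma imp_fo (n : ℕ) (δ : List ℕ) :
    FO (fun m K _ a => S.HasCurve (m - 1) n δ K a → δ.prod ∣ m - 1) := by
  intro m
  obtain ⟨φ, hφ⟩ := S.curve_fo n δ (m - 1)
  by_cases h : δ.prod ∣ m - 1
  · exact ⟨⊤, fun K _ _ hK a => by simp [h, FirstOrder.Language.Formula.Realize]⟩
  · refine ⟨FirstOrder.Language.Formula.not φ, fun K _ _ hK a => ?_⟩
    rw [FirstOrder.Language.Formula.realize_not, ← hφ K hK a]
    exact ⟨fun h1 h2 => h (h1 h2), fun h1 h2 => absurd h2 h1⟩

variable (S)

/-- For every dimension `n` and every list `δ` of degrees the following are equivalent: every curve on the very general complete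
intersection of the degrees `δ` over `ℂ` has degree divisible by the product of `δ`; for every `e`, `Good n δ e K` for some
algebraically closed field `K` of some characteristic `p > 0`; for every `e`, `Good n δ e K` for all algebraically closed fields of
characteristic zero and of all sufficiently large characteristics; for every `e`, `Good n δ e` holds over the algebraic closure
of `ℚ`. Hence Q1 is equivalent to the statement with the second condition. -/
theorem result :
    (∀ (n : ℕ) (δ : List ℕ), List.TFAE [
      S.VeryGeneral n δ,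
      ∀ e, ∃ p, p.Prime ∧ ∃ (K : Type) (_ : Field K), IsAlgClosed K ∧ CharP K p ∧ Good S n δ e K,
      ∀ e, ∃ B, ∀ (K : Type) [Field K], IsAlgClosed K → (CharZero K ∨ ∃ p, B < p ∧ p.Prime ∧ CharP K p) →
        Good S n δ e K,
      ∀ e, Good S n δ e (AlgebraicClosure ℚ)]) ∧
    ((∀ n r : ℕ, ∃ d, ∀ δ : List ℕ, δ.length = r → (∀ x ∈ δ, d < x) → S.VeryGeneral n δ) ↔
      ∀ n r : ℕ, ∃ d, ∀ δ : List ℕ, δ.length = r → (∀ x ∈ δ, d < x) →
        ∀ e, ∃ p, p.Prime ∧ ∃ (K : Type) (_ : Field K), IsAlgClosed K ∧ CharP K p ∧ Good S n δ e K) := by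
  have key : ∀ (n : ℕ) (δ : List ℕ), List.TFAE [
      S.VeryGeneral n δ,
      ∀ e, ∃ p, p.Prime ∧ ∃ (K : Type) (_ : Field K), IsAlgClosed K ∧ CharP K p ∧ Good S n δ e K,
      ∀ e, ∃ B, ∀ (K : Type) [Field K], IsAlgClosed K → (CharZero K ∨ ∃ p, B < p ∧ p.Prime ∧ CharP K p) →
        Good S n δ e K,
      ∀ e, Good S n δ e (AlgebraicClosure ℚ)] := by
    intro n δ
    have hfo := FO_conj (S.ci_fo n δ) (imp_fo (S := S) n δ)
    have t := tfae (P := fun e K _ a => Cond S n δ e K a) (Q := fun _ _ _ _ => False) hfo
      (fun _ => ⟨⊥, fun K _ _ _ a => by simp⟩) Decr_conj (fun _ _ _ _ _ _ _ h => h)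
    -- over the complex numbers, all levels at once
    have hvg : S.VeryGeneral n δ ↔ ∀ e, Good S n δ e ℂ := by
      rw [S.vg_iff n δ]
      constructor
      · rintro ⟨a, h1, h2⟩ e
        exact ⟨a, h1, fun m _ => h2 m⟩
      · intro h
        by_contra hne
        have t01 := t.out 0 1
        obtain ⟨N, hN⟩ := t01.1 (fun a ha => by
          exfalso
          exact hne ⟨a, (ha 0).1, fun e he => (cond_iff.1 (ha (e + 1))).2 e le_rfl he⟩)
        obtain ⟨a, h1, h2⟩ := h N
        have h3 : Cond S n δ (N + 1) ℂ a := cond_iff.2 ⟨h1, h2⟩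
        exact hN a ⟨h3.1, fun m h4 h5 => h3.2 m h4 (by omega)⟩
    tfae_have 1 → 3 := by
      intro h e
      have hC : Good S n δ e ℂ := hvg.1 h e
      -- one level: the negation would pass from infinitely many characteristics to `ℂ`
      have hfo1 : FO1 (fun K _ a => Cond S n δ (e + 1) K a) := hfo (e + 1)
      have u := tfae (P := fun _ K _ a => Cond S n δ (e + 1) K a) (Q := fun _ _ _ _ => False) (fun _ => hfo1)
        (fun _ => ⟨⊥, fun K _ _ _ a => by simp⟩) (fun _ _ _ _ _ _ _ h => h) (fun _ _ _ _ _ _ _ h => h)
      have u41 := u.out 4 1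
      have u31 := u.out 3 1
      have hzero : ∀ (K : Type) [Field K], IsAlgClosed K → CharZero K → Good S n δ e K := by
        intro K _ hK h0
        obtain ⟨a, ha⟩ := hC
        by_contra hbad
        obtain ⟨φ, hφ⟩ := hfo1
        let _ := FirstOrder.Ring.compatibleRingOfRing K
        let _ := FirstOrder.Ring.compatibleRingOfRing ℂ
        have h1 : K ⊨ allS φ ⊥ := by
          rw [realize_allS]
          intro b hb
          exact absurd ⟨b, cond_iff.1 ((hφ K hK b).2 hb)⟩ hbad
        have h2 := (models_iff (Or.inr rfl) K hK (CharP.ofCharZero K) _).1 h1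
        have h3 := (models_iff (Or.inr rfl) ℂ inferInstance inferInstance _).2 h2
        rw [realize_allS] at h3
        have h4 := h3 a ((hφ ℂ inferInstance a).1 (cond_iff.2 ha))
        simp at h4
      by_contra hB
      push Not at hB
      obtain ⟨a, ha⟩ := hC
      obtain ⟨_, hN⟩ := u41.1 ⟨0, fun B => by
        obtain ⟨K, _, hK, hc, hb⟩ := hB B
        rcases hc with h0 | ⟨p, hp, hpp, hc⟩
        · exact absurd (hzero K hK h0) hb
        · exact ⟨p, hp, hpp, K, _, hK, hc, fun b hb1 => hb ⟨b, cond_iff.1 hb1⟩⟩⟩
      exact hN a (cond_iff.2 ha)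
    tfae_have 3 → 4 := by
      intro h e
      obtain ⟨B, hB⟩ := h e
      exact hB _ inferInstance (Or.inl inferInstance)
    tfae_have 3 → 2 := by
      intro h e
      obtain ⟨B, hB⟩ := h e
      obtain ⟨p, hp1, hp2⟩ := Nat.exists_infinite_primes (B + 1)
      have : Fact p.Prime := ⟨hp2⟩
      exact ⟨p, hp2, AlgebraicClosure (ZMod p), inferInstance, inferInstance, inferInstance,
        hB _ inferInstance (Or.inr ⟨p, by omega, hp2, inferInstance⟩)⟩
    tfae_have 4 → 1 := fun h => hvg.2 fun e => S.spec n δ e _ inferInstance (h e)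
    tfae_have 2 → 1 := by
      intro h
      refine hvg.2 fun e => ?_
      obtain ⟨p, _, K, _, hK, _, h1⟩ := h e
      exact S.spec n δ e K hK h1
    tfae_finish
  refine ⟨key, ?_⟩
  have k01 := fun n δ => (key n δ).out 0 1
  constructor
  · intro h n r
    obtain ⟨d, hd⟩ := h n r
    exact ⟨d, fun δ h1 h2 => (k01 n δ).1 (hd δ h1 h2)⟩
  · intro h n r
    obtain ⟨d, hd⟩ := h n r
    exact ⟨d, fun δ h1 h2 => (k01 n δ).2 (hd δ h1 h2)⟩

end Pool.Agent.Results.MP_8dbee4_ag.OneCharacteristic
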